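import Pool.Agent.H.MP_5ad92a_pr.Final

/-!
# A Pearcey line ensemble exists

There is a random bi-infinite family of continuous curves `L i : ℝ → ℝ`, `i ∈ ℤ`, on one
probability space, such that for every finite set `T` of times the point configuration
`{(t, L i t) : t ∈ T, i ∈ ℤ}` on `T × ℝ` is determinantal with the extended Pearcey kernel: its
correlation functions with respect to (counting measure on `T`) times (Lebesgue measure) are
`det [K(s_i, x_i; s_j, x_j)]`.
-/

set_option autoImplicit false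

noncomputable section

open MeasureTheory
open scoped ENNReal

namespace Pool.Agent.Results.MP_5ad92a_pr.PearceyLineEnsemble

/-- The direction `e^{iα}`. -/
def dir (α : ℝ) : ℂ := Complex.exp ((α : ℂ) * Complex.I)

/-- The integral `∫ f(t) dt` over the ray `{r d : r > 0}`, oriented from `0` to infinity. -/
def rayIntegral (f : ℂ → ℂ) (d : ℂ) : ℂ := ∫ r in Set.Ioi (0 : ℝ), f ((r : ℂ) * d) * d

/-- The integrand `exp(-s⁴/4 + τ s²/2 - y s + t⁴/4 - σ t²/2 + x t) / (s - t)`. -/
def integrand (σ x τ y : ℝ) (s t : ℂ) : ℂ :=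
  Complex.exp (-s ^ 4 / 4 + (τ : ℂ) * s ^ 2 / 2 - (y : ℂ) * s + t ^ 4 / 4
    - (σ : ℂ) * t ^ 2 / 2 + (x : ℂ) * t) / (s - t)

/-- The integral of the integrand over `s = i u` from `-i∞` to `i∞`. -/
def innerIntegral (σ x τ y : ℝ) (t : ℂ) : ℂ :=
  ∫ u : ℝ, integrand σ x τ y ((u : ℂ) * Complex.I) t * Complex.I

/-- The extended Pearcey kernel `K(σ,x;τ,y)`. The contour of `t` consists of the rays from
`±∞ e^{iπ/4}` to `0` and from `0` to `±∞ e^{-iπ/4}`. -/
def pearceyKernel (σ x τ y : ℝ) : ℂ :=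
  -(1 / (4 * (Real.pi : ℂ) ^ 2)) *
    (-(rayIntegral (innerIntegral σ x τ y) (dir (Real.pi / 4)))
      - rayIntegral (innerIntegral σ x τ y) (-dir (Real.pi / 4))
      + rayIntegral (innerIntegral σ x τ y) (dir (-(Real.pi / 4)))
      + rayIntegral (innerIntegral σ x τ y) (-dir (-(Real.pi / 4))))
  - ((if σ < τ then
        (1 / Real.sqrt (2 * Real.pi * (τ - σ))) * Real.exp (-(x - y) ^ 2 / (2 * (τ - σ)))
      else 0 : ℝ) : ℂ)

/-- The determinant `det [K(s_a, x_a; s_b, x_b)]`. -/
def pearceyDet {k : ℕ} (s x : Fin k → ℝ) : ℂ :=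
  Matrix.det (Matrix.of fun a b : Fin k => pearceyKernel (s a) (x a) (s b) (x b))

/-- A Pearcey line ensemble: continuous random curves `L i`, `i ∈ ℤ`, such that for every finite
set `T` of times and every `k` the `k`-point correlation measure of the configuration
`{(t, L i t)}` on `T × ℝ` (the expected sum over `k`-tuples of distinct points `(t, i) ∈ T × ℤ`)
has the density `det [K]` with respect to (counting measure on `T`) times (Lebesgue measure). -/
structure IsPearceyLineEnsemble {Ω : Type} [MeasurableSpace Ω] (P : Measure Ω)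
    (L : ℤ → ℝ → Ω → ℝ) : Prop where
  /-- `P` is a probability measure. -/
  prob : IsProbabilityMeasure P
  /-- the curves are continuous -/
  cont : ∀ i ω, Continuous fun t => L i t ω
  /-- the curves are random variables -/
  meas : ∀ i t, Measurable (L i t)
  /-- the correlation functions -/
  corr : ∀ (T : Finset ℝ) (k : ℕ) (F : (Fin k → ℝ × ℝ) → ℝ≥0∞), Measurable F →
    ∫⁻ ω, ∑' ι : {ι : Fin k → T × ℤ // Function.Injective ι},
        F (fun a => (((ι.1 a).1 : ℝ), L (ι.1 a).2 ((ι.1 a).1 : ℝ) ω)) ∂P =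
      ∑ s : Fin k → T, ∫⁻ x : Fin k → ℝ, F (fun a => ((s a : ℝ), x a)) *
        ENNReal.ofReal (pearceyDet (fun a => (s a : ℝ)) x).re

/-- **Existence of a Pearcey line ensemble.** Moreover the curves can be chosen ordered
(`L i t ≤ L (i+1) t` for all `t`), at each fixed time almost surely strictly ordered and locally
finite; the determinants `det [K]` are real and nonnegative, and the double integrals in the
definition of the kernel converge absolutely. -/
theorem result :
    (∃ (Ω : Type) (_ : MeasurableSpace Ω) (P : Measure Ω) (L : ℤ → ℝ → Ω → ℝ),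
      IsPearceyLineEnsemble P L ∧
      (∀ i t ω, L i t ω ≤ L (i + 1) t ω) ∧
      (∀ t, ∀ᵐ ω ∂P, StrictMono (fun i => L i t ω) ∧ ∀ R : ℝ, {i : ℤ | |L i t ω| ≤ R}.Finite)) ∧
    (∀ (k : ℕ) (s x : Fin k → ℝ), (pearceyDet s x).im = 0 ∧ 0 ≤ (pearceyDet s x).re) ∧
    (∀ σ x τ y : ℝ, ∀ d : ℂ, (d = dir (Real.pi / 4) ∨ d = -dir (Real.pi / 4) ∨
      d = dir (-(Real.pi / 4)) ∨ d = -dir (-(Real.pi / 4))) →
      Integrable (fun p : ℝ × ℝ => integrand σ x τ y ((p.2 : ℂ) * Complex.I) ((p.1 : ℂ) * d))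
        ((volume.restrict (Set.Ioi (0 : ℝ))).prod volume)) := by
  have hdet : ∀ (k : ℕ) (s x : Fin k → ℝ), pearceyDet s x =
      ((Matrix.det (Matrix.of fun c d : Fin k => H.MP_5ad92a_pr.Kr (s c) (x c) (s d) (x d)) : ℝ) : ℂ) := by
    intro k s x
    have h1 : (Matrix.of fun a b : Fin k => pearceyKernel (s a) (x a) (s b) (x b)) =
        (Matrix.of fun c d : Fin k => H.MP_5ad92a_pr.Kr (s c) (x c) (s d) (x d)).map
          (Complex.ofRealHom) := by
      ext a b
      simp only [Matrix.of_apply, Matrix.map_apply, Complex.ofRealHom_eq_coe]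
      exact H.MP_5ad92a_pr.pearceyK_eq (s a) (x a) (s b) (x b)
    unfold pearceyDet
    rw [h1, ← RingHom.mapMatrix_apply, ← RingHom.map_det]
    rfl
  obtain ⟨P, hP, L, hL, hmono, hnn, hcorr⟩ := H.MP_5ad92a_pr.final
  refine ⟨⟨H.MP_5ad92a_pr.EE, inferInstance, P, L, ⟨hP, hL.cont, hL.meas, hL.corr⟩, hmono, ?_⟩, ?_, ?_⟩
  · intro t
    have h2 := H.MP_5ad92a_pr.ae_ne P L hL.meas t _ (hcorr 2 (fun _ => t))
    have h1 := H.MP_5ad92a_pr.ae_fin P L hL.meas t _ (H.MP_5ad92a_pr.Kdet_continuous (fun _ => t))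
      (hcorr 1 (fun _ => t))
    filter_upwards [h1, h2] with ω hω1 hω2
    refine ⟨strictMono_int_of_lt_succ fun i => ?_, hω1⟩
    exact lt_of_le_of_ne (hmono i t ω) (hω2 i (i + 1) (by omega))
  · intro k s x
    rw [hdet]
    exact ⟨Complex.ofReal_im _, by rw [Complex.ofReal_re]; exact hnn k s x⟩
  · intro σ x τ y d hd
    exact H.MP_5ad92a_pr.pearcey_integrable σ x τ y d hd

end Pool.Agent.Results.MP_5ad92a_pr.PearceyLineEnsemble
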